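import Pool.Agent.Helper60_Diag.Main

/-!
# Groenbaek's idempotent-diagonal criterion fails for noncommutative Banach algebras

There is a finite-dimensional unital Banach algebra whose diagonal ideal is idempotent, although the
algebra is not weakly amenable. The example is the four-dimensional algebra of generalised `2 × 2`
matrices in which products of two off-diagonal entries vanish.
-/

set_option autoImplicit false

open Pool.Agent.Helper60.Diag

/-- There is a finite-dimensional unital complex Banach algebra `A` such that the diagonal ideal
`I^Δ = ker (π₊ : A₊ ⊗̂ A₊ᵒᵖ → A₊)` is idempotent but `A` is not weakly amenable. -/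
theorem Pool.Agent.Results.MP_ae31bd_an.Counterexample.result :
    ∃ (A : Type) (_ : NormedRing A) (_ : NormedAlgebra ℂ A) (_ : CompleteSpace A),
      FiniteDimensional ℂ A ∧ DiagIdempotent A ∧ ¬ WeaklyAmenable A :=
  ⟨Quiv, inferInstance, inferInstance, inferInstance, inferInstance, quiv_diagIdempotent,
    quiv_not_weaklyAmenable⟩
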