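import Pool.Agent.Helper60_Diag.Forward

/-!
# One half of Groenbaek's criterion holds for all Banach algebras

For every Banach algebra, commutative or not, weak amenability implies that the diagonal ideal is
idempotent.
-/

set_option autoImplicit false

open Pool.Agent.Helper60.Diag

universe u

/-- For every complex Banach algebra `A` (commutative or not): if `A` is weakly amenable, then its
diagonal ideal `I^Δ = ker (A₊ ⊗̂ A₊ᵒᵖ → A₊)` is idempotent. -/
theorem Pool.Agent.Results.MP_ae31bd_an.Forward.result
    (A : Type u) [NonUnitalNormedRing A] [NormedSpace ℂ A] [IsScalarTower ℂ A A]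
    [SMulCommClass ℂ A A] [CompleteSpace A] (h : WeaklyAmenable A) : DiagIdempotent A :=
  diagIdempotent_of_weaklyAmenable h
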